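import Pool.Agent.Y463.QT.Moment

set_option autoImplicit false

namespace Pool.Agent.Y463.QT

open Finset LaurentPolynomial Function Pool.Agent.H832R2.JR

variable {N : ℕ}

/-- The number of chords which cross the chord `a`. -/
noncomputable def degree (G : GaussWord N) (a : Fin N) : ℕ := Nat.card {j : Fin N // Crosses G a j}

/-- `k` pairs `u i`, `v i` of crossing chords such that the chords `u i` do not cross each other
and `u i` crosses none of the chords `v j`, `j ≠ i` (the chords `v j` may cross each other). -/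
def IsSemiInduced (G : GaussWord N) {k : ℕ} (u v : Fin k → Fin N) : Prop :=
  (∀ i j, ¬ Crosses G (u i) (u j)) ∧ ∀ i j, Crosses G (u i) (v j) ↔ i = j

/-- The number of the `2 ^ N` choices of the crossings for which the normalised bracket is `F`. -/
noncomputable def hits (G : GaussWord N) (F : ℤ[T;T⁻¹]) : ℕ :=
  Nat.card {w : Fin N → Bool // fPoly G w = F}

theorem hits_le (G : GaussWord N) (F : ℤ[T;T⁻¹]) (i₀ : Fin N) : ∃ c : ℤ,
    hits G F ≤ (univ.filter fun w => Q (adjm G) w = c).card := by
  classical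
  obtain ⟨K, hK⟩ := second_moment G i₀
  by_cases hne : ∃ w₀ : Fin N → Bool, fPoly G w₀ = F
  · obtain ⟨w₀, hw₀⟩ := hne
    refine ⟨Q (adjm G) w₀, ?_⟩
    unfold hits
    rw [Nat.card_eq_fintype_card, Fintype.card_subtype]
    refine card_le_card fun w hw => ?_
    rw [mem_filter] at hw ⊢
    refine ⟨hw.1, ?_⟩
    have e1 := hK w
    have e2 := hK w₀
    rw [hw.2] at e1
    rw [hw₀] at e2
    linarith
  · refine ⟨0, ?_⟩
    have h4 : IsEmpty {w : Fin N → Bool // fPoly G w = F} := ⟨fun w => hne ⟨w.1, w.2⟩⟩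
    unfold hits
    rw [Nat.card_eq_zero.2 (Or.inl h4)]
    exact Nat.zero_le _

theorem adjm_ne (G : GaussWord N) (i j : Fin N) : adjm G i j ≠ 0 ↔ Crosses G i j := by
  unfold adjm
  split_ifs with h <;> simp [h]

theorem degree_eq (G : GaussWord N) (a : Fin N) :
    (univ.filter fun j => adjm G a j ≠ 0).card = degree G a := by
  classical
  unfold degree
  rw [Nat.card_eq_fintype_card, Fintype.card_subtype]
  congr 1
  ext j
  simp only [mem_filter, mem_univ, true_and, adjm_ne]

theorem adjm_self (G : GaussWord N) (a : Fin N) : adjm G a a = 0 := by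
  unfold adjm; rw [if_neg (not_crosses_self G a)]

theorem one_chord (G : GaussWord N) (F : ℤ[T;T⁻¹]) (a : Fin N) :
    2 * 2 ^ degree G a * hits G F ≤
      (2 ^ degree G a + (degree G a).choose (degree G a / 2)) * 2 ^ N := by
  obtain ⟨c, hc⟩ := hits_le G F a
  have h1 := single (adjm G) (adjm_symm G) a (adjm_self G a) c
  have h2 := LO_exact (fun j => adjm G a j) 0
  rw [degree_eq, Fintype.card_fin] at h2
  calc 2 * 2 ^ degree G a * hits G F ≤
      2 ^ degree G a * (2 * (univ.filter fun w => Q (adjm G) w = c).card) := by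
        rw [mul_comm 2 (2 ^ degree G a), mul_assoc]
        exact Nat.mul_le_mul_left _ (Nat.mul_le_mul_left _ hc)
    _ ≤ 2 ^ degree G a * (2 ^ N + (univ.filter fun y : Fin N → Bool =>
        ∑ j, sgn (y j) * adjm G a j = 0).card) := Nat.mul_le_mul_left _ h1
    _ = 2 ^ degree G a * 2 ^ N + (univ.filter fun y : Fin N → Bool =>
        ∑ j, sgn (y j) * adjm G a j = 0).card * 2 ^ degree G a := by ring
    _ ≤ 2 ^ degree G a * 2 ^ N + 2 ^ N * (degree G a).choose (degree G a / 2) :=
        Nat.add_le_add_left h2 _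
    _ = _ := by ring

theorem odd_chord (G : GaussWord N) (F : ℤ[T;T⁻¹]) (a : Fin N) (ha : Odd (degree G a)) :
    2 * hits G F ≤ 2 ^ N := by
  classical
  obtain ⟨c, hc⟩ := hits_le G F a
  have h1 := single (adjm G) (adjm_symm G) a (adjm_self G a) c
  have h2 : (univ.filter fun y : Fin N → Bool => ∑ j, sgn (y j) * adjm G a j = 0) = ∅ := by
    rw [filter_eq_empty_iff]
    intro y _ hy
    have h3 : ∑ j, adjm G a j = degree G a := by
      rw [← degree_eq, card_eq_sum_ones, Nat.cast_sum, sum_filter]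
      refine sum_congr rfl fun j _ => ?_
      unfold adjm
      split_ifs <;> simp_all
    have h4 : ∑ j, sgn (y j) * adjm G a j =
        ∑ j, adjm G a j - 2 * ∑ j, (if y j then 0 else adjm G a j) := by
      rw [mul_sum, ← sum_sub_distrib]
      refine sum_congr rfl fun j _ => ?_
      unfold sgn
      cases y j
      · simp only [Bool.false_eq_true, if_false]; ring
      · simp
    rw [hy, h3] at h4
    obtain ⟨m, hm⟩ := ha
    rw [hm] at h4
    push_cast at h4
    omega
  rw [h2, card_empty, add_zero] at h1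
  exact (Nat.mul_le_mul_left _ hc).trans h1

theorem two_choose (r : ℕ) (hr : 1 ≤ r) : 2 * r.choose (r / 2) ≤ 2 ^ r := by
  obtain ⟨m, rfl⟩ : ∃ m, r = m + 1 := ⟨r - 1, by omega⟩
  rcases Nat.eq_zero_or_pos ((m + 1) / 2) with h | h
  · have : m = 0 := by omega
    subst this
    norm_num
  · obtain ⟨q, hq⟩ : ∃ q, (m + 1) / 2 = q + 1 := ⟨(m + 1) / 2 - 1, by omega⟩
    rw [hq, Nat.choose_succ_succ, pow_succ, mul_comm]
    refine Nat.mul_le_mul_right _ ?_
    rw [← Nat.sum_range_choose m]
    have h1 : ({q, q + 1} : Finset ℕ) ⊆ range (m + 1) := by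
      intro x hx
      rw [mem_insert, mem_singleton] at hx
      rw [mem_range]
      omega
    refine le_trans (le_of_eq ?_) (sum_le_sum_of_subset h1)
    rw [sum_pair (by omega)]

theorem three_quarters (G : GaussWord N) (F : ℤ[T;T⁻¹]) (a b : Fin N) (hab : Crosses G a b) :
    4 * hits G F ≤ 3 * 2 ^ N := by
  have h1 := one_chord G F a
  have hd : 1 ≤ degree G a := by
    unfold degree
    haveI : Nonempty {j : Fin N // Crosses G a j} := ⟨⟨b, hab⟩⟩
    exact Nat.card_pos
  have h2 := two_choose _ hd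
  have h3 : 2 ^ degree G a * (4 * hits G F) ≤ 2 ^ degree G a * (3 * 2 ^ N) := by
    calc 2 ^ degree G a * (4 * hits G F) = 2 * (2 * 2 ^ degree G a * hits G F) := by ring
      _ ≤ 2 * ((2 ^ degree G a + (degree G a).choose (degree G a / 2)) * 2 ^ N) :=
        Nat.mul_le_mul_left _ h1
      _ = (2 * 2 ^ degree G a + 2 * (degree G a).choose (degree G a / 2)) * 2 ^ N := by ring
      _ ≤ (2 * 2 ^ degree G a + 2 ^ degree G a) * 2 ^ N :=
        Nat.mul_le_mul_right _ (Nat.add_le_add_left h2 _)
      _ = _ := by ring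
  exact Nat.le_of_mul_le_mul_left h3 (by positivity)

theorem semi_bound (G : GaussWord N) (F : ℤ[T;T⁻¹]) {k : ℕ} (u v : Fin k → Fin N)
    (h : IsSemiInduced G u v) : (hits G F : ℝ) * √(k : ℝ) ≤ 4 * 2 ^ N := by
  rcases Nat.eq_zero_or_pos k with rfl | hk
  · rw [Nat.cast_zero, Real.sqrt_zero, mul_zero]
    positivity
  · obtain ⟨c, hc⟩ := hits_le G F (u ⟨0, hk⟩)
    have hu : Injective u := by
      intro i j hij
      rw [← h.2, hij, h.2]
    have hv : Injective v := by
      intro i j hij
      rw [← h.2, ← hij, h.2]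
    have h0 : ∀ i j, adjm G (u i) (u j) = 0 := by
      intro i j
      unfold adjm
      rw [if_neg (h.1 i j)]
    have h1 : ∀ i j, adjm G (u i) (v j) = if i = j then 1 else 0 := by
      intro i j
      unfold adjm
      by_cases hij : i = j
      · rw [if_pos hij, if_pos ((h.2 i j).2 hij)]
      · rw [if_neg hij, if_neg fun hh => hij ((h.2 i j).1 hh)]
    have h2 := semi (adjm G) (adjm_symm G) u v hu hv h0 h1 c
    rw [Fintype.card_fin] at h2
    refine le_trans ?_ h2
    gcongr

/-- a maximal semi-induced matching meets the neighbourhood of every non-isolated chord -/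
theorem exists_semi (G : GaussWord N) (Δ : ℕ) (hΔ : ∀ a, degree G a ≤ Δ) :
    ∃ (k : ℕ) (u v : Fin k → Fin N), IsSemiInduced G u v ∧
      Nat.card {a : Fin N // ∃ b, Crosses G a b} ≤ k * (Δ + 1) ^ 2 := by
  classical
  let P : ℕ → Prop := fun k => ∃ u v : Fin k → Fin N, IsSemiInduced G u v
  have hP0 : P 0 := ⟨Fin.elim0, Fin.elim0, fun i => i.elim0, fun i => i.elim0⟩
  have hPN : ∀ k, P k → k ≤ N := by
    rintro k ⟨u, v, h⟩
    have hu : Injective u := by
      intro i j hij
      rw [← h.2, hij, h.2]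
    have := Fintype.card_le_of_injective u hu
    simpa using this
  set k := Nat.findGreatest P N with hk
  have hPk : P k := Nat.findGreatest_spec (Nat.zero_le N) hP0
  have hPk1 : ¬ P (k + 1) := by
    intro h
    exact Nat.findGreatest_is_greatest (P := P) (Nat.lt_succ_self k) (hPN _ h) h
  obtain ⟨u, v, h⟩ := hPk
  refine ⟨k, u, v, h, ?_⟩
  have key : ∀ a b, Crosses G a b → (∃ i, Crosses G (u i) a) ∨ (∃ i, Crosses G (v i) a) ∨
      ∃ i, Crosses G (u i) b := by
    intro a b hab
    by_contra hcon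
    push Not at hcon
    obtain ⟨c1, c2, c3⟩ := hcon
    refine hPk1 ⟨Fin.cons a u, Fin.cons b v, ?_, ?_⟩
    · intro i j
      refine Fin.cases ?_ (fun i => ?_) i <;> refine Fin.cases ?_ (fun j => ?_) j
      · simpa using not_crosses_self G a
      · simpa using fun hh => c1 j (crosses_symm G _ _ hh)
      · simpa using c1 i
      · simpa using h.1 i j
    · intro i j
      refine Fin.cases ?_ (fun i => ?_) i <;> refine Fin.cases ?_ (fun j => ?_) j
      · simpa using hab
      · have e : (0 : Fin (k + 1)) ≠ j.succ := (Fin.succ_ne_zero j).symm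
        simp only [Fin.cons_zero, Fin.cons_succ, e, iff_false]
        exact fun hh => c2 j (crosses_symm G _ _ hh)
      · have e : i.succ ≠ (0 : Fin (k + 1)) := Fin.succ_ne_zero i
        simp only [Fin.cons_zero, Fin.cons_succ, e, iff_false]
        exact c3 i
      · simpa using h.2 i j
  let nb : Fin N → Finset (Fin N) := fun a => univ.filter fun j => Crosses G a j
  have hnb : ∀ a, (nb a).card ≤ Δ := by
    intro a
    have : (nb a).card = degree G a := by
      unfold degree
      rw [Nat.card_eq_fintype_card, Fintype.card_subtype]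
    rw [this]
    exact hΔ a
  have hmem : ∀ a b, b ∈ nb a ↔ Crosses G a b := by
    intro a b
    simp [nb]
  have hsub : (univ.filter fun a => ∃ b, Crosses G a b) ⊆
      (univ : Finset (Fin k)).biUnion fun i => nb (u i) ∪ (nb (v i) ∪ (nb (u i)).biUnion nb) := by
    intro a ha
    rw [mem_filter] at ha
    obtain ⟨-, b, hab⟩ := ha
    rw [mem_biUnion]
    rcases key a b hab with ⟨i, hi⟩ | ⟨i, hi⟩ | ⟨i, hi⟩
    · exact ⟨i, mem_univ _, mem_union_left _ ((hmem _ _).2 hi)⟩
    · exact ⟨i, mem_univ _, mem_union_right _ (mem_union_left _ ((hmem _ _).2 hi))⟩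
    · refine ⟨i, mem_univ _, mem_union_right _ (mem_union_right _ ?_)⟩
      rw [mem_biUnion]
      exact ⟨b, (hmem _ _).2 hi, (hmem _ _).2 (crosses_symm G _ _ hab)⟩
  have hcard : (univ.filter fun a => ∃ b, Crosses G a b).card ≤ k * (Δ + 1) ^ 2 := by
    refine (card_le_card hsub).trans ?_
    refine (card_biUnion_le_card_mul _ _ (Δ + (Δ + Δ * Δ)) ?_).trans ?_
    · intro i _
      refine (card_union_le _ _).trans (Nat.add_le_add (hnb _) ?_)
      refine (card_union_le _ _).trans (Nat.add_le_add (hnb _) ?_)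
      refine (card_biUnion_le_card_mul _ _ Δ (fun b _ => hnb b)).trans ?_
      exact Nat.mul_le_mul_right _ (hnb _)
    · rw [card_univ, Fintype.card_fin]
      refine Nat.mul_le_mul_left _ ?_
      nlinarith
  rw [Nat.card_eq_fintype_card, Fintype.card_subtype]
  exact hcard

theorem degree_bound (G : GaussWord N) (F : ℤ[T;T⁻¹]) (Δ : ℕ) (hΔ : ∀ a, degree G a ≤ Δ) :
    (hits G F : ℝ) * √(Nat.card {a : Fin N // ∃ b, Crosses G a b} : ℝ) ≤
      4 * (Δ + 1) * 2 ^ N := by
  obtain ⟨k, u, v, h, hk⟩ := exists_semi G Δ hΔ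
  have h1 := semi_bound G F u v h
  have h2 : √(Nat.card {a : Fin N // ∃ b, Crosses G a b} : ℝ) ≤ √(k : ℝ) * (Δ + 1) := by
    have e : √(k : ℝ) * (Δ + 1) = √((k : ℝ) * (Δ + 1) ^ 2) := by
      rw [Real.sqrt_mul (Nat.cast_nonneg k), Real.sqrt_sq (by positivity)]
    rw [e]
    exact Real.sqrt_le_sqrt (by exact_mod_cast hk)
  calc _ ≤ (hits G F : ℝ) * (√(k : ℝ) * (Δ + 1)) := by gcongr
    _ = ((hits G F : ℝ) * √(k : ℝ)) * (Δ + 1) := by ring
    _ ≤ (4 * 2 ^ N) * (Δ + 1) := by gcongr
    _ = _ := by ring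

end Pool.Agent.Y463.QT
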