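import Pool.Agent.H832R2.JR.Moment
import Pool.Agent.H832R2.JR.LO

set_option autoImplicit false

namespace Pool.Agent.Y463.QT

open Finset LaurentPolynomial Function Pool.Agent.H832R2.JR

variable {N : ℕ} {ι : Type} [Fintype ι] [DecidableEq ι]

/-- the coefficients of the quadratic form as a linear form in the signs at independent chords -/
def cf (A : Fin N → Fin N → ℤ) (u : ι → Fin N) (y : Fin N → Bool) (k : ι) : ℤ :=
  ∑ j, A (u k) j * sgn (y j)

theorem Q_indep (A : Fin N → Fin N → ℤ) (hA : ∀ i j, A i j = A j i) (u : ι → Fin N)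
    (hu : Injective u) (h0 : ∀ k l, A (u k) (u l) = 0) (y : Fin N → Bool) :
    ∃ b : ℤ, ∀ x : ι → Bool,
      Q A (extend u x y) = 2 * ∑ k, sgn (x k) * cf A u y k + b := by
  classical
  let η : (Fin N → Bool) → Fin N → ℤ := fun y j => if ∃ l, u l = j then 0 else sgn (y j)
  let ξ : (ι → Bool) → Fin N → ℤ := fun x i => ∑ k, if u k = i then sgn (x k) else 0
  have hsplit : ∀ x y i, sgn (extend u x y i) = ξ x i + η y i := by
    intro x y i
    simp only [ξ, η]
    by_cases hi : ∃ k, u k = i
    · obtain ⟨k, rfl⟩ := hi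
      rw [hu.extend_apply, if_pos ⟨k, rfl⟩, add_zero]
      rw [sum_eq_single k]
      · simp
      · intro l _ hl
        rw [if_neg (fun h => hl (hu h))]
      · intro h; exact absurd (mem_univ k) h
    · rw [extend_apply' _ _ _ hi, if_neg hi, sum_eq_zero, zero_add]
      intro k _
      rw [if_neg (fun h => hi ⟨k, h⟩)]
  have hξ : ∀ (x : ι → Bool) (g : Fin N → ℤ), ∑ i, ξ x i * g i = ∑ k, sgn (x k) * g (u k) := by
    intro x g
    simp only [ξ, sum_mul]
    rw [sum_comm]
    refine sum_congr rfl fun k _ => ?_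
    simp [ite_mul]
  have hQ : ∀ x y, Q A (extend u x y) = ∑ i, ξ x i * ∑ j, ξ x j * A i j +
      2 * ∑ i, ξ x i * ∑ j, A i j * η y j + ∑ i, ∑ j, A i j * (η y i * η y j) := by
    intro x y
    have h1 : ∑ i, ∑ j, A i j * (η y i * ξ x j) = ∑ i, ∑ j, A i j * (ξ x i * η y j) := by
      rw [sum_comm]
      refine sum_congr rfl fun i _ => sum_congr rfl fun j _ => ?_
      rw [hA j i]; ring
    have h2 : ∑ i, ξ x i * ∑ j, A i j * η y j = ∑ i, ∑ j, A i j * (ξ x i * η y j) := by
      refine sum_congr rfl fun i _ => ?_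
      rw [mul_sum]
      exact sum_congr rfl fun j _ => by ring
    have h3 : ∑ i, ξ x i * ∑ j, ξ x j * A i j = ∑ i, ∑ j, A i j * (ξ x i * ξ x j) := by
      refine sum_congr rfl fun i _ => ?_
      rw [mul_sum]
      exact sum_congr rfl fun j _ => by ring
    unfold Q
    rw [h2, h3, two_mul]
    nth_rewrite 2 [← h1]
    rw [← sum_add_distrib, ← sum_add_distrib, ← sum_add_distrib]
    refine sum_congr rfl fun i _ => ?_
    rw [← sum_add_distrib, ← sum_add_distrib, ← sum_add_distrib]
    refine sum_congr rfl fun j _ => ?_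
    rw [hsplit, hsplit]; ring
  refine ⟨∑ i, ∑ j, A i j * (η y i * η y j), fun x => ?_⟩
  rw [hQ, hξ, hξ]
  have e1 : ∑ k, sgn (x k) * ∑ j, ξ x j * A (u k) j = 0 := by
    refine sum_eq_zero fun k _ => ?_
    rw [hξ, sum_eq_zero, mul_zero]
    intro l _
    rw [h0, mul_zero]
  have e2 : ∀ k, ∑ j, A (u k) j * η y j = cf A u y k := by
    intro k
    unfold cf
    refine sum_congr rfl fun j _ => ?_
    simp only [η]
    split_ifs with h
    · obtain ⟨l, rfl⟩ := h
      rw [h0, zero_mul, zero_mul]
    · rfl
  rw [e1, zero_add]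
  simp only [e2]

/-- the number of solutions is a sum over the signs `y` outside -/
theorem count_eq (A : Fin N → Fin N → ℤ) (u : ι → Fin N) (hu : Injective u) (c : ℤ) :
    ((univ.filter fun w => Q A w = c).card : ℝ) * 2 ^ Fintype.card ι =
      ∑ y : Fin N → Bool,
        ((univ.filter fun x : ι → Bool => Q A (extend u x y) = c).card : ℝ) := by
  classical
  have h := sum_extend u hu (fun w => if Q A w = c then (1 : ℝ) else 0)
  have h1 : ((univ.filter fun w => Q A w = c).card : ℝ) =
      ∑ w : Fin N → Bool, (if Q A w = c then (1 : ℝ) else 0) := by simp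
  rw [h1, mul_comm, ← h, sum_comm]
  refine sum_congr rfl fun y _ => ?_
  simp

/-! ### one chord -/

theorem single (A : Fin N → Fin N → ℤ) (hA : ∀ i j, A i j = A j i) (a : Fin N)
    (h0 : A a a = 0) (c : ℤ) :
    2 * (univ.filter fun w => Q A w = c).card ≤
      2 ^ N + (univ.filter fun y : Fin N → Bool => ∑ j, sgn (y j) * A a j = 0).card := by
  classical
  have h1 := count_eq A (fun _ : Unit => a) (fun _ _ _ => rfl) c
  have h2 : ∀ y : Fin N → Bool,
      ((univ.filter fun x : Unit → Bool => Q A (extend (fun _ => a) x y) = c).card : ℝ) ≤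
        1 + (if ∑ j, sgn (y j) * A a j = 0 then 1 else 0) := by
    intro y
    obtain ⟨b, hb⟩ := Q_indep A hA (fun _ : Unit => a) (fun _ _ _ => rfl) (fun _ _ => h0) y
    have hcf : cf A (fun _ : Unit => a) y () = ∑ j, sgn (y j) * A a j := by
      unfold cf
      exact sum_congr rfl fun j _ => mul_comm _ _
    have hb' : ∀ x : Unit → Bool, Q A (extend (fun _ => a) x y) =
        2 * (sgn (x ()) * ∑ j, sgn (y j) * A a j) + b := by
      intro x
      rw [hb x]
      simp [hcf]
    split_ifs with hS
    · have h3 : (univ.filter fun x : Unit → Bool =>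
          Q A (extend (fun _ => a) x y) = c).card ≤ 2 := by
        refine (card_le_univ _).trans ?_
        simp
      have : (((univ.filter fun x : Unit → Bool =>
          Q A (extend (fun _ => a) x y) = c).card : ℕ) : ℝ) ≤ (2 : ℕ) := by exact_mod_cast h3
      push_cast at this
      linarith
    · have h3 : (univ.filter fun x : Unit → Bool =>
          Q A (extend (fun _ => a) x y) = c).card ≤ 1 := by
        rw [card_le_one]
        intro x hx x' hx'
        rw [mem_filter] at hx hx'
        have e1 := hb' x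
        have e2 := hb' x'
        rw [hx.2] at e1
        rw [hx'.2] at e2
        have e3 : sgn (x ()) * ∑ j, sgn (y j) * A a j = sgn (x' ()) * ∑ j, sgn (y j) * A a j := by
          linarith
        have e4 := mul_right_cancel₀ hS e3
        funext t
        cases t
        unfold sgn at e4
        cases h5 : x () <;> cases h6 : x' () <;> simp_all
      have : (((univ.filter fun x : Unit → Bool =>
          Q A (extend (fun _ => a) x y) = c).card : ℕ) : ℝ) ≤ (1 : ℕ) := by exact_mod_cast h3
      push_cast at this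
      linarith
  have h3 : ((univ.filter fun w => Q A w = c).card : ℝ) * 2 ≤
      2 ^ N + ((univ.filter fun y : Fin N → Bool => ∑ j, sgn (y j) * A a j = 0).card : ℝ) := by
    have h4 : ((univ.filter fun w => Q A w = c).card : ℝ) * 2 ^ Fintype.card Unit =
      ((univ.filter fun w => Q A w = c).card : ℝ) * 2 := by simp
    rw [← h4, h1]
    refine (sum_le_sum fun y _ => h2 y).trans (le_of_eq ?_)
    rw [sum_add_distrib]
    simp
  have h5 : (((univ.filter fun w => Q A w = c).card * 2 : ℕ) : ℝ) ≤
      ((2 ^ N + (univ.filter fun y : Fin N → Bool =>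
        ∑ j, sgn (y j) * A a j = 0).card : ℕ) : ℝ) := by
    push_cast
    exact h3
  have h6 := Nat.cast_le.mp h5
  linarith

/-- exact Littlewood-Offord bound with zero coefficients allowed -/
theorem LO_exact {κ : Type} [Fintype κ] [DecidableEq κ] (a : κ → ℤ) (b : ℤ) :
    (univ.filter fun x : κ → Bool => ∑ k, sgn (x k) * a k = b).card *
        2 ^ (univ.filter fun k => a k ≠ 0).card ≤
      2 ^ Fintype.card κ * ((univ.filter fun k => a k ≠ 0).card.choose
        ((univ.filter fun k => a k ≠ 0).card / 2)) := by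
  classical
  let e := Equiv.piEquivPiSubtypeProd (fun k => a k ≠ 0) (fun _ : κ => Bool)
  have h1 : (univ.filter fun x : κ → Bool => ∑ k, sgn (x k) * a k = b).card =
      ((univ.filter fun x : {k // a k ≠ 0} → Bool => ∑ k, sgn (x k) * a k = b) ×ˢ
        (univ : Finset ({k // ¬ a k ≠ 0} → Bool))).card := by
    refine card_equiv e ?_
    intro x
    simp only [mem_filter, mem_univ, true_and, mem_product, and_true]
    have h2 : ∑ k, sgn (x k) * a k = ∑ k : {k // a k ≠ 0}, sgn (x k) * a k := by
      rw [← sum_filter_add_sum_filter_not univ (fun k => a k ≠ 0)]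
      rw [sum_eq_zero (s := univ.filter fun k => ¬ a k ≠ 0), add_zero]
      · exact (sum_subtype (univ.filter fun k => a k ≠ 0) (by simp)
          (fun k => sgn (x k) * a k))
      · intro k hk
        rw [mem_filter, not_not] at hk
        rw [hk.2, mul_zero]
    rw [h2]
    exact Iff.rfl
  have h3 := LO_nonzero (fun k : {k // a k ≠ 0} => a k) (fun k => k.2) b
  have h4 : Fintype.card {k // a k ≠ 0} = (univ.filter fun k => a k ≠ 0).card :=
    Fintype.card_subtype _
  have h5 : Fintype.card {k // ¬ a k ≠ 0} + (univ.filter fun k => a k ≠ 0).card =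
      Fintype.card κ := by
    rw [Fintype.card_subtype, add_comm]
    have h6 := card_filter_add_card_filter_not (s := (univ : Finset κ)) (fun k => a k ≠ 0)
    rw [card_univ] at h6
    exact h6
  rw [h4] at h3
  rw [h1, card_product, card_univ, Fintype.card_fun, Fintype.card_bool]
  calc _ = (univ.filter fun x : {k // a k ≠ 0} → Bool => ∑ k, sgn (x k) * a k = b).card *
        (2 ^ Fintype.card {k // ¬ a k ≠ 0} * 2 ^ (univ.filter fun k => a k ≠ 0).card) := by ring
    _ = (univ.filter fun x : {k // a k ≠ 0} → Bool => ∑ k, sgn (x k) * a k = b).card *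
        2 ^ Fintype.card κ := by rw [← pow_add, h5]
    _ ≤ _ := by
      rw [mul_comm]
      exact Nat.mul_le_mul_left _ h3

end Pool.Agent.Y463.QT
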