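import Pool.Agent.Y463.QT.Main

set_option autoImplicit false

namespace Pool.Agent.Y463.QT

open Finset Function Pool.Agent.H832R2.JR

variable {N : ℕ} {ι : Type} [Fintype ι] [DecidableEq ι]

/-- flipping the sign of the partner of a chord changes its coefficient and no other one -/
theorem cf_extend (A : Fin N → Fin N → ℤ) (u v : ι → Fin N) (hv : Injective v)
    (h1 : ∀ i j, A (u i) (v j) = if i = j then 1 else 0) (y : Fin N → Bool) :
    ∃ r : ι → ℤ, ∀ (x : ι → Bool) (i : ι), cf A u (extend v x y) i = sgn (x i) + r i := by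
  classical
  refine ⟨fun i => ∑ j, if ∃ l, v l = j then 0 else A (u i) j * sgn (y j), fun x i => ?_⟩
  unfold cf
  have h2 : ∀ j, A (u i) j * sgn (extend v x y j) =
      (∑ k, if v k = j then A (u i) (v k) * sgn (x k) else 0) +
        (if ∃ l, v l = j then 0 else A (u i) j * sgn (y j)) := by
    intro j
    by_cases hj : ∃ l, v l = j
    · obtain ⟨l, rfl⟩ := hj
      rw [hv.extend_apply, if_pos ⟨l, rfl⟩, add_zero, sum_eq_single l]
      · simp
      · intro k _ hk
        rw [if_neg (fun h => hk (hv h))]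
      · intro h; exact absurd (mem_univ l) h
    · rw [extend_apply' _ _ _ hj, if_neg hj, sum_eq_zero, zero_add]
      intro k _
      rw [if_neg (fun h => hj ⟨k, h⟩)]
  rw [sum_congr rfl (fun j _ => h2 j), sum_add_distrib]
  congr 1
  rw [sum_comm]
  have h3 : ∀ k, ∑ j, (if v k = j then A (u i) (v k) * sgn (x k) else 0) =
      if i = k then sgn (x k) else 0 := by
    intro k
    rw [sum_ite_eq, if_pos (mem_univ _), h1]
    split_ifs <;> simp
  rw [sum_congr rfl (fun k _ => h3 k)]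
  simp

/-- exponential moment of the number of vanishing coefficients -/
theorem exp_moment (A : Fin N → Fin N → ℤ) (u v : ι → Fin N) (hv : Injective v)
    (h1 : ∀ i j, A (u i) (v j) = if i = j then 1 else 0) :
    2 ^ Fintype.card ι * ∑ w : Fin N → Bool, ∏ i, (if cf A u w i = 0 then (2 : ℝ) else 1) ≤
      2 ^ N * 3 ^ Fintype.card ι := by
  classical
  rw [← sum_extend v hv (fun w => ∏ i, (if cf A u w i = 0 then (2 : ℝ) else 1)), sum_comm]
  have h2 : ∀ y : Fin N → Bool, ∑ x : ι → Bool,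
      ∏ i, (if cf A u (extend v x y) i = 0 then (2 : ℝ) else 1) ≤ 3 ^ Fintype.card ι := by
    intro y
    obtain ⟨r, hr⟩ := cf_extend A u v hv h1 y
    simp only [hr]
    have e : ∑ x : ι → Bool, ∏ i, (if sgn (x i) + r i = 0 then (2 : ℝ) else 1) =
        ∏ i, ∑ b : Bool, (if sgn b + r i = 0 then (2 : ℝ) else 1) := by
      rw [prod_univ_sum, Fintype.piFinset_univ]
    rw [e]
    rw [← card_univ, ← prod_const]
    refine prod_le_prod (fun i _ => ?_) (fun i _ => ?_)
    · exact sum_nonneg fun b _ => by split_ifs <;> norm_num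
    · rw [Fintype.sum_bool]
      unfold sgn
      simp only [if_true, Bool.false_eq_true, if_false]
      by_cases h3 : 1 + r i = 0
      · have h4 : ¬ (-1 + r i = 0) := by omega
        rw [if_pos h3, if_neg h4]; norm_num
      · rw [if_neg h3]
        split_ifs <;> norm_num
  refine (sum_le_sum fun y _ => h2 y).trans (le_of_eq ?_)
  simp

theorem prod_two (A : Fin N → Fin N → ℤ) (u : ι → Fin N) (w : Fin N → Bool) :
    ∏ i, (if cf A u w i = 0 then (2 : ℝ) else 1) =
      2 ^ (univ.filter fun i => cf A u w i = 0).card := by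
  rw [prod_ite, prod_const, prod_const_one, mul_one]

/-- the elementary inequality `k² (81/128)^k ≤ 16` -/
theorem kq (k : ℕ) : (k : ℝ) ^ 2 * (81 / 128 : ℝ) ^ k ≤ 16 := by
  have h : ∀ m : ℕ, ((m + 4 : ℕ) : ℝ) ^ 2 * (81 / 128 : ℝ) ^ (m + 4) ≤ 16 := by
    intro m
    induction m with
    | zero => norm_num
    | succ m ih =>
      have e : ((m + 1 + 4 : ℕ) : ℝ) ^ 2 * (81 / 128 : ℝ) ≤ ((m + 4 : ℕ) : ℝ) ^ 2 := by
        push_cast
        have hm : (0 : ℝ) ≤ m := Nat.cast_nonneg m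
        nlinarith
      calc ((m + 1 + 4 : ℕ) : ℝ) ^ 2 * (81 / 128 : ℝ) ^ (m + 1 + 4) =
          (((m + 1 + 4 : ℕ) : ℝ) ^ 2 * (81 / 128 : ℝ)) * (81 / 128 : ℝ) ^ (m + 4) := by ring
        _ ≤ ((m + 4 : ℕ) : ℝ) ^ 2 * (81 / 128 : ℝ) ^ (m + 4) := by gcongr
        _ ≤ 16 := ih
  rcases Nat.lt_or_ge k 4 with hk | hk
  · interval_cases k <;> norm_num
  · obtain ⟨m, rfl⟩ : ∃ m, k = m + 4 := ⟨k - 4, by omega⟩
    exact h m

/-- few outsides have few nonvanishing coefficients -/
theorem bad_le (A : Fin N → Fin N → ℤ) (u v : ι → Fin N) (hv : Injective v)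
    (h1 : ∀ i j, A (u i) (v j) = if i = j then 1 else 0) :
    ((univ.filter fun w : Fin N → Bool =>
      4 * (univ.filter fun i => cf A u w i ≠ 0).card < Fintype.card ι).card : ℝ) *
        √(Fintype.card ι : ℝ) ≤ 2 * 2 ^ N := by
  classical
  set k := Fintype.card ι with hk
  set Bd := univ.filter fun w : Fin N → Bool =>
    4 * (univ.filter fun i => cf A u w i ≠ 0).card < k with hBd
  have hm := exp_moment A u v hv h1
  rw [← hk] at hm
  set M : ℝ := ∑ w : Fin N → Bool, ∏ i, (if cf A u w i = 0 then (2 : ℝ) else 1) with hM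
  set t : ℝ := √(√((8 : ℝ) ^ k)) with ht
  have ht4 : t ^ 4 = 8 ^ k := by
    have e1 : t ^ 2 = √((8 : ℝ) ^ k) := Real.sq_sqrt (Real.sqrt_nonneg _)
    have e2 : (√((8 : ℝ) ^ k)) ^ 2 = 8 ^ k := Real.sq_sqrt (by positivity)
    calc t ^ 4 = (t ^ 2) ^ 2 := by ring
      _ = _ := by rw [e1, e2]
  have ht0 : 0 ≤ t := Real.sqrt_nonneg _
  have h2 : ∀ w ∈ Bd, t ≤ ∏ i, (if cf A u w i = 0 then (2 : ℝ) else 1) := by
    intro w hw
    rw [hBd, mem_filter] at hw
    rw [prod_two]
    have h3 := card_filter_add_card_filter_not (s := (univ : Finset ι)) (fun i => cf A u w i = 0)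
    rw [card_univ, ← hk] at h3
    have h4 : 3 * k ≤ 4 * (univ.filter fun i => cf A u w i = 0).card := by
      have := hw.2
      simp only [ne_eq] at this
      omega
    refine le_of_pow_le_pow_left₀ (n := 4) (by norm_num) (by positivity) ?_
    rw [ht4, ← pow_mul]
    calc (8 : ℝ) ^ k = 2 ^ (3 * k) := by rw [pow_mul]; norm_num
      _ ≤ 2 ^ ((univ.filter fun i => cf A u w i = 0).card * 4) :=
        pow_le_pow_right₀ (by norm_num) (by omega)
  have h3 : (Bd.card : ℝ) * t ≤ M := by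
    calc (Bd.card : ℝ) * t = ∑ _w ∈ Bd, t := by simp
      _ ≤ ∑ w ∈ Bd, ∏ i, (if cf A u w i = 0 then (2 : ℝ) else 1) := sum_le_sum h2
      _ ≤ M := by
        refine sum_le_sum_of_subset_of_nonneg (subset_univ _) fun w _ _ => ?_
        exact prod_nonneg fun i _ => by split_ifs <;> norm_num
  have h4 : 2 ^ k * ((Bd.card : ℝ) * t) ≤ 2 ^ N * 3 ^ k :=
    (mul_le_mul_of_nonneg_left h3 (by positivity)).trans hm
  have h5 : (2 ^ k * ((Bd.card : ℝ) * t)) ^ 4 ≤ (2 ^ N * 3 ^ k) ^ 4 :=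
    pow_le_pow_left₀ (by positivity) h4 4
  have h6 : (Bd.card : ℝ) ^ 4 * 128 ^ k ≤ (2 ^ N) ^ 4 * 81 ^ k := by
    have e1 : (2 ^ k * ((Bd.card : ℝ) * t)) ^ 4 = (Bd.card : ℝ) ^ 4 * 128 ^ k := by
      rw [mul_pow, mul_pow, ht4, ← pow_mul, mul_comm k 4, pow_mul]
      calc ((2 : ℝ) ^ 4) ^ k * ((Bd.card : ℝ) ^ 4 * 8 ^ k) =
          (Bd.card : ℝ) ^ 4 * (((2 : ℝ) ^ 4) ^ k * 8 ^ k) := by ring
        _ = (Bd.card : ℝ) ^ 4 * 128 ^ k := by rw [← mul_pow]; norm_num
    have e2 : ((2 : ℝ) ^ N * 3 ^ k) ^ 4 = (2 ^ N) ^ 4 * 81 ^ k := by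
      rw [mul_pow, ← pow_mul 3 k 4, mul_comm k 4, pow_mul 3 4 k]; norm_num
    rw [e1, e2] at h5
    exact h5
  have h7 : (Bd.card : ℝ) ^ 4 ≤ (2 ^ N) ^ 4 * (81 / 128) ^ k := by
    rw [div_pow, ← mul_div_assoc, le_div_iff₀ (by positivity)]
    exact h6
  refine le_of_pow_le_pow_left₀ (n := 4) (by norm_num) (by positivity) ?_
  have e3 : (√(k : ℝ)) ^ 4 = (k : ℝ) ^ 2 := by
    calc (√(k : ℝ)) ^ 4 = ((√(k : ℝ)) ^ 2) ^ 2 := by ring
      _ = _ := by rw [Real.sq_sqrt (Nat.cast_nonneg k)]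
  calc ((Bd.card : ℝ) * √(k : ℝ)) ^ 4 = (Bd.card : ℝ) ^ 4 * (k : ℝ) ^ 2 := by
        rw [mul_pow, e3]
    _ ≤ ((2 ^ N) ^ 4 * (81 / 128) ^ k) * (k : ℝ) ^ 2 := by gcongr
    _ = (2 ^ N) ^ 4 * ((k : ℝ) ^ 2 * (81 / 128) ^ k) := by ring
    _ ≤ (2 ^ N) ^ 4 * 16 := by
        have := kq k
        gcongr
    _ = (2 * 2 ^ N) ^ 4 := by ring

/-- The quadratic Littlewood-Offord bound with the optimal exponent for semi-induced matchings. -/
theorem semi (A : Fin N → Fin N → ℤ) (hA : ∀ i j, A i j = A j i) (u v : ι → Fin N)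
    (hu : Injective u) (hv : Injective v) (h0 : ∀ k l, A (u k) (u l) = 0)
    (h1 : ∀ i j, A (u i) (v j) = if i = j then 1 else 0) (c : ℤ) :
    ((univ.filter fun w => Q A w = c).card : ℝ) * √(Fintype.card ι : ℝ) ≤ 4 * 2 ^ N := by
  classical
  set k := Fintype.card ι with hk
  have hb := bad_le A u v hv h1
  rw [← hk] at hb
  set Bd := univ.filter fun w : Fin N → Bool =>
    4 * (univ.filter fun i => cf A u w i ≠ 0).card < k with hBd
  have hc := count_eq A u hu c
  rw [← hk] at hc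
  have h2 : ∀ y : Fin N → Bool,
      ((univ.filter fun x : ι → Bool => Q A (extend u x y) = c).card : ℝ) * √(k : ℝ) ≤
        2 ^ k * ((if y ∈ Bd then √(k : ℝ) else 0) + 2) := by
    intro y
    split_ifs with hy
    · have h3 : ((univ.filter fun x : ι → Bool =>
          Q A (extend u x y) = c).card : ℝ) ≤ 2 ^ k := by
        have := card_le_univ (univ.filter fun x : ι → Bool => Q A (extend u x y) = c)
        rw [Fintype.card_fun, Fintype.card_bool, ← hk] at this
        exact_mod_cast this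
      calc _ ≤ 2 ^ k * √(k : ℝ) := by gcongr
        _ ≤ _ := by
          have : (0 : ℝ) ≤ 2 ^ k := by positivity
          nlinarith
    · obtain ⟨b, hb⟩ := Q_indep A hA u hu h0 y
      have h3 : (univ.filter fun x : ι → Bool => Q A (extend u x y) = c).card ≤
          (univ.filter fun x : ι → Bool =>
            ∑ i, sgn (x i) * (2 * cf A u y i) = c - b).card := by
        refine card_le_card fun x hx => ?_
        rw [mem_filter] at hx ⊢
        refine ⟨hx.1, ?_⟩
        have h5 := hb x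
        rw [hx.2] at h5
        have h6 : ∑ i, sgn (x i) * (2 * cf A u y i) = 2 * ∑ i, sgn (x i) * cf A u y i := by
          rw [mul_sum]; exact sum_congr rfl fun i _ => by ring
        rw [h6]; linarith
      have h4 := LO (fun i => 2 * cf A u y i) (c - b)
      have h5 : (univ.filter fun i => 2 * cf A u y i ≠ 0) =
          univ.filter fun i => cf A u y i ≠ 0 := by
        ext i; simp
      rw [h5, ← hk] at h4
      have h6 : k ≤ 4 * (univ.filter fun i => cf A u y i ≠ 0).card := by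
        by_contra hcon
        exact hy (by rw [hBd, mem_filter]; exact ⟨mem_univ _, by omega⟩)
      have h7 : √(k : ℝ) ≤ 2 * √((univ.filter fun i => cf A u y i ≠ 0).card : ℝ) := by
        have e : (2 : ℝ) = √4 := by
          rw [show (4 : ℝ) = 2 ^ 2 by norm_num, Real.sqrt_sq (by norm_num)]
        rw [e, ← Real.sqrt_mul (by norm_num)]
        exact Real.sqrt_le_sqrt (by exact_mod_cast h6)
      rw [zero_add]
      calc _ ≤ ((univ.filter fun x : ι → Bool =>
            ∑ i, sgn (x i) * (2 * cf A u y i) = c - b).card : ℝ) *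
              (2 * √((univ.filter fun i => cf A u y i ≠ 0).card : ℝ)) := by
            gcongr
        _ = 2 * (((univ.filter fun x : ι → Bool =>
            ∑ i, sgn (x i) * (2 * cf A u y i) = c - b).card : ℝ) *
              √((univ.filter fun i => cf A u y i ≠ 0).card : ℝ)) := by ring
        _ ≤ 2 * 2 ^ k := by gcongr
        _ = 2 ^ k * 2 := by ring
  have h3 : ((univ.filter fun w => Q A w = c).card : ℝ) * 2 ^ k * √(k : ℝ) ≤
      2 ^ k * ((Bd.card : ℝ) * √(k : ℝ) + 2 * 2 ^ N) := by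
    rw [hc, sum_mul]
    refine (sum_le_sum fun y _ => h2 y).trans (le_of_eq ?_)
    rw [← mul_sum, sum_add_distrib]
    congr 2
    · rw [← sum_filter]
      simp
    · simp
      ring
  have h4 : 2 ^ k * (((univ.filter fun w => Q A w = c).card : ℝ) * √(k : ℝ)) ≤
      2 ^ k * (4 * 2 ^ N) := by
    calc _ = ((univ.filter fun w => Q A w = c).card : ℝ) * 2 ^ k * √(k : ℝ) := by ring
      _ ≤ _ := h3
      _ ≤ 2 ^ k * (2 * 2 ^ N + 2 * 2 ^ N) := by gcongr
      _ = _ := by ring
  exact le_of_mul_le_mul_left h4 (by positivity)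

end Pool.Agent.Y463.QT
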