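import Pool.Agent.Y463.QT.Final

set_option autoImplicit false

namespace Pool.Agent.Y463.QT

open Finset LaurentPolynomial Function Pool.Agent.H832R2.JR

/-- The shadow of the standard diagram of the trefoil: the Gauss word `0 1 2 0 1 2`. -/
def trefoil : GaussWord 3 where
  toFun p := ⟨(p.1 : ℕ) + (if p.2 then 3 else 0), by
    have := p.1.2
    split_ifs <;> omega⟩
  invFun i := (⟨(i : ℕ) % 3, Nat.mod_lt _ (by norm_num)⟩, decide (3 ≤ (i : ℕ)))
  left_inv := by decide
  right_inv := by decide

/-- `n` steps along a closed curve -/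
def walk {H : Type} (f g : H → H) : ℕ → H → H
  | 0, x => x
  | n + 1, x => if n % 2 = 0 then f (walk f g n x) else g (walk f g n x)

theorem walk_class {H : Type} (f g : H → H) (n : ℕ) (x : H) :
    Quot.mk (gen f g) (walk f g n x) = Quot.mk (gen f g) x := by
  induction n with
  | zero => rfl
  | succ n ih =>
    show Quot.mk (gen f g) (if n % 2 = 0 then f (walk f g n x) else g (walk f g n x)) = _
    split_ifs
    · have h : gen f g (walk f g n x) (f (walk f g n x)) := Or.inl rfl
      exact (Quot.sound h).symm.trans ih
    · have h : gen f g (walk f g n x) (g (walk f g n x)) := Or.inr rfl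
      exact (Quot.sound h).symm.trans ih

theorem count_curves {H : Type} [Fintype H] [DecidableEq H] (f g m : H → H)
    (hm : ∀ x, m (f x) = m x ∧ m (g x) = m x) (hr : ∀ x, ∃ n : Fin 13, walk f g n x = m x) :
    Nat.card (Quot (gen f g)) = (univ.image m).card := by
  have h1 : ∀ x y, gen f g x y → m x = m y := by
    rintro x y (rfl | rfl)
    · exact (hm x).1.symm
    · exact (hm x).2.symm
  let F : Quot (gen f g) → {y // y ∈ univ.image m} :=
    Quot.lift (fun x => ⟨m x, mem_image_of_mem m (mem_univ x)⟩)
      (fun x y h => Subtype.ext (h1 x y h))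
  have hF : Bijective F := by
    constructor
    · rintro ⟨x⟩ ⟨y⟩ h
      have h2 : m x = m y := congrArg Subtype.val h
      obtain ⟨n, hn⟩ := hr x
      obtain ⟨n', hn'⟩ := hr y
      have e1 := walk_class f g n x
      have e2 := walk_class f g n' y
      rw [hn] at e1
      rw [hn', ← h2] at e2
      exact e1.symm.trans e2
    · rintro ⟨y, hy⟩
      obtain ⟨x, _, rfl⟩ := mem_image.1 hy
      exact ⟨Quot.mk _ x, rfl⟩
  rw [Nat.card_congr (Equiv.ofBijective F hF), Nat.card_eq_fintype_card, Fintype.card_coe]

/-- the arcs of the trefoil shadow -/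
def arcT : Half 3 → Half 3
  | ((0, b), true) => ((1, b), false)
  | ((1, b), true) => ((2, b), false)
  | ((2, b), true) => ((0, !b), false)
  | ((0, b), false) => ((2, !b), true)
  | ((1, b), false) => ((0, b), true)
  | ((2, b), false) => ((1, b), true)

theorem arcT_eq : arcFun trefoil = arcT := by
  funext x
  revert x
  decide

/-- the number of a half edge -/
def ix (x : Half 3) : ℕ := 4 * (x.1.1 : ℕ) + 2 * x.1.2.toNat + x.2.toNat

/-- the half edge of least number on the curve of a half edge -/
def least (f g : Half 3 → Half 3) (x : Half 3) : Half 3 :=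
  (List.range 12).foldl (fun y n => if ix (walk f g (n + 1) x) < ix y then walk f g (n + 1) x else y) x

/-- the number of curves of a state of the trefoil shadow -/
def curves (s : Fin 3 → Bool) : ℕ :=
  (univ.image (least arcT (smooth (tri s)))).card

theorem loops_tr (s : Fin 3 → Bool) : loops trefoil s = curves s := by
  rw [loops_eq]
  unfold L curves
  rw [arcT_eq]
  refine count_curves _ _ _ ?_ ?_
  · revert s
    decide +kernel
  · revert s
    decide +kernel

/-- the values -/
def tb (s : Fin 3 → Bool) : ℕ :=
  match s 0, s 1, s 2 with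
  | true, true, true => 2
  | false, false, false => 3
  | true, true, false => 1
  | true, false, true => 1
  | false, true, true => 1
  | _, _, _ => 2

theorem curves_eq : ∀ s, curves s = tb s := by
  decide +kernel

theorem states_eq : (univ : Finset (Fin 3 → Bool)) =
    {![true, true, true], ![true, true, false], ![true, false, true], ![true, false, false],
      ![false, true, true], ![false, true, false], ![false, false, true],
      ![false, false, false]} := by
  decide

/-- the bracket of the diagrams on the trefoil shadow -/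
theorem bracket_tr (w : Fin 3 → Bool) : bracket trefoil w =
    T (sgn (w 0) + sgn (w 1) + sgn (w 2)) * (-T 2 - T (-2)) +
    T (sgn (w 0) + sgn (w 1) - sgn (w 2)) +
    T (sgn (w 0) - sgn (w 1) + sgn (w 2)) +
    T (sgn (w 0) - sgn (w 1) - sgn (w 2)) * (-T 2 - T (-2)) +
    T (-sgn (w 0) + sgn (w 1) + sgn (w 2)) +
    T (-sgn (w 0) + sgn (w 1) - sgn (w 2)) * (-T 2 - T (-2)) +
    T (-sgn (w 0) - sgn (w 1) + sgn (w 2)) * (-T 2 - T (-2)) +
    T (-sgn (w 0) - sgn (w 1) - sgn (w 2)) * (-T 2 - T (-2)) ^ 2 := by
  unfold bracket
  have h : ∀ s : Fin 3 → Bool, T (weight w s) * (-T 2 - T (-2) : ℤ[T;T⁻¹]) ^ (loops trefoil s - 1) =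
      T (weight w s) * (-T 2 - T (-2)) ^ (tb s - 1) := by
    intro s
    rw [loops_tr, curves_eq]
  rw [sum_congr rfl (fun s _ => h s), states_eq]
  rw [sum_insert (by decide), sum_insert (by decide), sum_insert (by decide),
    sum_insert (by decide), sum_insert (by decide), sum_insert (by decide),
    sum_insert (by decide), sum_singleton]
  have e1 : sgn true = 1 := rfl
  have e2 : sgn false = -1 := rfl
  simp only [weight, Fin.sum_univ_three, tb, Matrix.cons_val_zero, Matrix.cons_val_one,
    Matrix.cons_val_two, Matrix.head_cons, Matrix.tail_cons, Matrix.cons_val, e1, e2, mul_one,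
    mul_neg, Nat.add_one_sub_one, pow_one, pow_zero, Nat.reduceSub]
  simp only [sub_eq_add_neg, add_assoc]

theorem mixed (w : Fin 3 → Bool) (hw : w ≠ ![true, true, true]) (hw' : w ≠ ![false, false, false]) :
    fPoly trefoil w = 1 := by
  have hd : (-T 2 - T (-2) : ℤ[T;T⁻¹]) ^ 2 = T 4 + 2 + T (-4) := by
    rw [sq, sub_mul, mul_sub, mul_sub, neg_mul_neg, ← T_add]
    simp only [neg_mul, mul_neg, ← T_add]
    norm_num
    ring
  unfold fPoly
  rw [bracket_tr, hd]
  have hwr : writhe w = sgn (w 0) + sgn (w 1) + sgn (w 2) := by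
    unfold writhe
    rw [Fin.sum_univ_three]
  rw [hwr]
  have e : w = ![w 0, w 1, w 2] := by
    funext i
    fin_cases i <;> rfl
  rw [e] at hw hw'
  have e1 : sgn true = 1 := rfl
  have e2 : sgn false = -1 := rfl
  cases h0 : w 0 <;> cases h1 : w 1 <;> cases h2 : w 2 <;> rw [h0, h1, h2] at hw hw'
  · exact absurd rfl hw'
  all_goals first
    | exact absurd rfl hw
    | (rw [if_neg (by decide)]
       simp only [e1, e2, mul_add, mul_sub, mul_neg, ← T_add, neg_mul, one_mul, mul_assoc]
       norm_num [← T_add, mul_add, mul_sub, ← mul_assoc]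
       try ring)

theorem crosses_tr : Crosses trefoil 0 1 := by
  unfold Crosses Pool.Agent.H832R2.JR.Btw
  decide

/-- exactly six of the eight diagrams on the trefoil shadow have trivial normalised bracket -/
theorem trefoil_hits : hits trefoil 1 = 6 := by
  classical
  refine le_antisymm ?_ ?_
  · have := three_quarters trefoil 1 0 1 crosses_tr
    omega
  · unfold hits
    rw [Nat.card_eq_fintype_card, Fintype.card_subtype]
    have h1 : (univ.filter fun w : Fin 3 → Bool =>
        w ≠ ![true, true, true] ∧ w ≠ ![false, false, false]).card = 6 := by decide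
    rw [← h1]
    refine card_le_card fun w hw => ?_
    rw [mem_filter] at hw ⊢
    exact ⟨mem_univ _, mixed w hw.2.1 hw.2.2⟩

end Pool.Agent.Y463.QT
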